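import Mathlib
import Pool.Agent.helper85.MT.MLS

/-! # JT, module BIL: products of two primes in progressions on average -/

set_option autoImplicit false

open Finset

namespace Pool.Agent.helper7.JT

/-- the character sum over a finite set -/
noncomputable def BILs {m : ℕ} (χ : DirichletCharacter ℂ m) (P : Finset ℕ) : ℂ :=
  ∑ p ∈ P, χ (p : ZMod m)

/-- the product of the character sums over the primitive characters -/
noncomputable def BILw (P₁ P₂ : Finset ℕ) (r : ℕ) : ℝ := by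
  classical
  exact ∑ χ ∈ (univ : Finset (DirichletCharacter ℂ r)).filter (fun χ => χ.IsPrimitive),
    ‖BILs χ P₁‖ * ‖BILs χ P₂‖

lemma BILw_nonneg (P₁ P₂ : Finset ℕ) (r : ℕ) : 0 ≤ BILw P₁ P₂ r := by
  unfold BILw
  exact sum_nonneg fun χ _ => by positivity

open Classical in
/-- one modulus: orthogonality and primitive characters -/
lemma BIL_one (P₁ P₂ : Finset ℕ) (m c : ℕ) (hm0 : 0 < m) (hc : Nat.Coprime c m)
    (h₁ : ∀ p ∈ P₁, Nat.Coprime p m) (h₂ : ∀ p ∈ P₂, Nat.Coprime p m) :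
    |(((P₁ ×ˢ P₂).filter fun p => p.1 * p.2 % m = c % m).card : ℝ)
        - P₁.card * P₂.card / Nat.totient m|
      ≤ 1 / (Nat.totient m : ℝ) * ∑ r ∈ m.divisors with 2 ≤ r, BILw P₁ P₂ r := by
  have : NeZero m := ⟨hm0.ne'⟩
  set S := (univ : Finset (DirichletCharacter ℂ m)).filter (fun χ => χ ≠ 1) with hS
  have hSmem : ∀ χ : DirichletCharacter ℂ m, χ ∈ S ↔ χ ≠ 1 := fun χ => by simp [hS]
  have hφ : (0 : ℝ) < Nat.totient m := by exact_mod_cast Nat.totient_pos.mpr hm0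
  have hcu : IsUnit (c : ZMod m) := (ZMod.isUnit_iff_coprime c m).mpr hc
  set A := ((P₁ ×ˢ P₂).filter fun p => p.1 * p.2 % m = c % m).card with hA
  -- orthogonality
  have h1 : (((Nat.totient m * A : ℕ) : ℝ) : ℂ)
      = ∑ χ : DirichletCharacter ℂ m, χ (c : ZMod m)⁻¹ * (BILs χ P₁ * BILs χ P₂) := by
    have e1 : ∀ χ : DirichletCharacter ℂ m, χ (c : ZMod m)⁻¹ * (BILs χ P₁ * BILs χ P₂)
        = ∑ p ∈ P₁ ×ˢ P₂, χ (c : ZMod m)⁻¹ * χ ((p.1 * p.2 : ℕ) : ZMod m) := by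
      intro χ
      unfold BILs
      rw [sum_mul_sum, ← sum_product', mul_sum]
      refine sum_congr rfl fun p _ => ?_
      rw [Nat.cast_mul, map_mul]
    rw [sum_congr rfl (fun χ _ => e1 χ), sum_comm]
    have e2 : ∀ p ∈ P₁ ×ˢ P₂,
        ∑ χ : DirichletCharacter ℂ m, (χ (c : ZMod m)⁻¹ * χ ((p.1 * p.2 : ℕ) : ZMod m))
        = if p.1 * p.2 % m = c % m then (Nat.totient m : ℂ) else 0 := by
      intro p _
      rw [DirichletCharacter.sum_char_inv_mul_char_eq ℂ hcu]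
      have h3 : ((c : ZMod m) = ((p.1 * p.2 : ℕ) : ZMod m)) ↔ p.1 * p.2 % m = c % m := by
        rw [ZMod.natCast_eq_natCast_iff]
        exact ⟨fun h => h.symm, fun h => h.symm⟩
      by_cases h : p.1 * p.2 % m = c % m
      · rw [if_pos h, if_pos (h3.mpr h)]
      · rw [if_neg h, if_neg (fun h' => h (h3.mp h'))]
    rw [sum_congr rfl e2, ← sum_filter, sum_const, nsmul_eq_mul, ← hA]
    push_cast
    ring
  -- the trivial character
  have h2 : ∀ P : Finset ℕ, (∀ p ∈ P, Nat.Coprime p m) →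
      BILs (1 : DirichletCharacter ℂ m) P = (P.card : ℂ) := by
    intro P hP
    unfold BILs
    rw [sum_congr rfl (fun p hp => MulChar.one_apply ((ZMod.isUnit_iff_coprime p m).mpr (hP p hp))),
      sum_const, nsmul_eq_mul, mul_one]
  have h3 : (((Nat.totient m * A - P₁.card * P₂.card : ℝ)) : ℂ)
      = ∑ χ ∈ S, χ (c : ZMod m)⁻¹ * (BILs χ P₁ * BILs χ P₂) := by
    have e1 : ∑ χ : DirichletCharacter ℂ m, χ (c : ZMod m)⁻¹ * (BILs χ P₁ * BILs χ P₂)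
        = (1 : DirichletCharacter ℂ m) (c : ZMod m)⁻¹ *
            (BILs (1 : DirichletCharacter ℂ m) P₁ * BILs (1 : DirichletCharacter ℂ m) P₂)
          + ∑ χ ∈ S, χ (c : ZMod m)⁻¹ * (BILs χ P₁ * BILs χ P₂) := by
      have e0 : S = univ.erase (1 : DirichletCharacter ℂ m) := by
        ext χ
        rw [hSmem, mem_erase]
        simp
      rw [e0]
      exact (add_sum_erase univ (fun χ : DirichletCharacter ℂ m =>
        χ (c : ZMod m)⁻¹ * (BILs χ P₁ * BILs χ P₂)) (mem_univ 1)).symm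
    have e2 : (1 : DirichletCharacter ℂ m) (c : ZMod m)⁻¹ = 1 := by
      refine MulChar.one_apply ?_
      obtain ⟨u, hu⟩ := hcu
      rw [← hu, ZMod.inv_coe_unit]
      exact u⁻¹.isUnit
    rw [e2, one_mul, h2 P₁ h₁, h2 P₂ h₂, ← h1] at e1
    push_cast at e1 ⊢
    rw [e1]
    ring
  have h4 : |Nat.totient m * (A : ℝ) - P₁.card * P₂.card|
      ≤ ∑ χ ∈ S, ‖BILs χ P₁‖ * ‖BILs χ P₂‖ := by
    rw [← Real.norm_eq_abs, ← Complex.norm_real, h3]
    refine (norm_sum_le _ _).trans (sum_le_sum fun χ _ => ?_)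
    rw [norm_mul, norm_mul]
    exact mul_le_of_le_one_left (by positivity) (DirichletCharacter.norm_le_one χ _)
  -- primitive characters
  have h5 : ∀ (P : Finset ℕ), (∀ p ∈ P, Nat.Coprime p m) → ∀ χ : DirichletCharacter ℂ m,
      BILs χ P = BILs χ.primitiveCharacter P := by
    intro P hP χ
    unfold BILs
    refine sum_congr rfl fun p hp => ?_
    have h2 := χ.primitiveCharacter_apply_of_isCoprime (a := (p : ℤ))
      (Nat.isCoprime_iff_coprime.mpr (hP p hp))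
    push_cast at h2
    exact h2.symm
  set T : Finset (Σ r : ℕ, DirichletCharacter ℂ r) :=
    (m.divisors.filter (fun r => 2 ≤ r)).sigma
      (fun r => (univ : Finset (DirichletCharacter ℂ r)).filter (fun χ => χ.IsPrimitive)) with hT
  set g : DirichletCharacter ℂ m → (Σ r : ℕ, DirichletCharacter ℂ r) :=
    fun χ => ⟨χ.conductor, χ.primitiveCharacter⟩ with hg
  have hinj : Function.Injective g := by
    have hleft : ∀ χ : DirichletCharacter ℂ m,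
        (fun i : (Σ r : ℕ, DirichletCharacter ℂ r) =>
          if h : i.1 ∣ m then DirichletCharacter.changeLevel h i.2 else 1) (g χ) = χ := by
      intro χ
      simp only [hg]
      rw [dif_pos χ.conductor_dvd_level]
      exact χ.changeLevel_primitiveCharacter
    intro χ χ' h
    rw [← hleft χ, ← hleft χ', h]
  have h6 : ∑ χ ∈ S, ‖BILs χ P₁‖ * ‖BILs χ P₂‖ ≤ ∑ i ∈ T, ‖BILs i.2 P₁‖ * ‖BILs i.2 P₂‖ := by
    have e1 : ∑ χ ∈ S, ‖BILs χ P₁‖ * ‖BILs χ P₂‖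
        = ∑ i ∈ S.image g, ‖BILs i.2 P₁‖ * ‖BILs i.2 P₂‖ := by
      rw [sum_image (fun x _ y _ h => hinj h)]
      refine sum_congr rfl fun χ _ => ?_
      rw [h5 P₁ h₁ χ, h5 P₂ h₂ χ]
    rw [e1]
    refine sum_le_sum_of_subset_of_nonneg ?_ (fun _ _ _ => by positivity)
    intro i hi
    rw [mem_image] at hi
    obtain ⟨χ, hχ, rfl⟩ := hi
    rw [hSmem] at hχ
    rw [hT, mem_sigma, mem_filter, mem_filter]
    refine ⟨⟨Nat.mem_divisors.mpr ⟨χ.conductor_dvd_level, hm0.ne'⟩, ?_⟩, mem_univ _,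
      χ.primitiveCharacter_isPrimitive⟩
    have h4 : χ.conductor ≠ 0 := DirichletCharacter.conductor_ne_zero χ
    have h5 : χ.conductor ≠ 1 := fun h => hχ (DirichletCharacter.eq_one_iff_conductor_eq_one.mpr h)
    simp only [hg]
    omega
  have h7 : ∑ i ∈ T, ‖BILs i.2 P₁‖ * ‖BILs i.2 P₂‖ = ∑ r ∈ m.divisors with 2 ≤ r, BILw P₁ P₂ r := by
    rw [hT, sum_sigma]
    rfl
  have e8 : (A : ℝ) - P₁.card * P₂.card / Nat.totient m =
      1 / (Nat.totient m : ℝ) * (Nat.totient m * (A : ℝ) - P₁.card * P₂.card) := by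
    field_simp
  rw [e8, abs_mul, abs_of_nonneg (by positivity : 0 ≤ 1 / (Nat.totient m : ℝ)), ← h7]
  exact mul_le_mul_of_nonneg_left (h4.trans h6) (by positivity)

open Classical in
/-- the large sieve for a set of integers in `[1, N]` -/
lemma BIL_sieve (R N : ℕ) (P : Finset ℕ) (hP : ∀ p ∈ P, 1 ≤ p ∧ p ≤ N) :
    ∑ r ∈ Icc 1 R, (r : ℝ) / Nat.totient r * ∑ χ : DirichletCharacter ℂ r with χ.IsPrimitive,
        ‖BILs χ P‖ ^ 2 ≤ 5 * ((N : ℝ) + R ^ 2) * P.card := by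
  have h := Pool.Agent.helper85.MT.mult_large_sieve R 0 N (fun n => if n ∈ P then 1 else 0)
  have hsub : P ⊆ Ioc 0 (0 + N) := by
    intro p hp
    rw [mem_Ioc]
    have := hP p hp
    omega
  have h1 : ∀ (r : ℕ) (χ : DirichletCharacter ℂ r),
      ∑ n ∈ Ioc 0 (0 + N), (if n ∈ P then (1 : ℂ) else 0) * χ n = BILs χ P := by
    intro r χ
    unfold BILs
    rw [← sum_subset hsub]
    · refine sum_congr rfl fun p hp => ?_
      rw [if_pos hp, one_mul]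
    · intro n _ hn
      rw [if_neg hn, zero_mul]
  have h2 : ∑ n ∈ Ioc 0 (0 + N), ‖(if n ∈ P then (1 : ℂ) else 0)‖ ^ 2 = P.card := by
    rw [← sum_subset hsub]
    · rw [sum_congr rfl (fun p hp => by rw [if_pos hp, norm_one, one_pow]), sum_const,
        nsmul_eq_mul, mul_one]
    · intro n _ hn
      rw [if_neg hn, norm_zero]
      norm_num
  rw [h2] at h
  simp only [h1] at h
  exact h

open Classical in
/-- Cauchy and Schwarz for the two sums -/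
lemma BIL_cs (R N₁ N₂ : ℕ) (P₁ P₂ : Finset ℕ) (hP₁ : ∀ p ∈ P₁, 1 ≤ p ∧ p ≤ N₁)
    (hP₂ : ∀ p ∈ P₂, 1 ≤ p ∧ p ≤ N₂) (h1 : R ^ 2 ≤ N₁) (h2 : R ^ 2 ≤ N₂) :
    ∑ r ∈ Icc 1 R, (r : ℝ) / Nat.totient r * BILw P₁ P₂ r
      ≤ 10 * √((N₁ : ℝ) * N₂ * P₁.card * P₂.card) := by
  set T : Finset (Σ r : ℕ, DirichletCharacter ℂ r) :=
    (Icc 1 R).sigma
      (fun r => (univ : Finset (DirichletCharacter ℂ r)).filter (fun χ => χ.IsPrimitive)) with hT
  have hw : ∀ F : (Σ r : ℕ, DirichletCharacter ℂ r) → ℝ,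
      ∑ r ∈ Icc 1 R, (r : ℝ) / Nat.totient r * ∑ χ ∈ (univ :
        Finset (DirichletCharacter ℂ r)).filter (fun χ => χ.IsPrimitive), F ⟨r, χ⟩ =
      ∑ i ∈ T, ((i.1 : ℝ) / Nat.totient i.1) * F i := by
    intro F
    rw [hT, sum_sigma]
    refine sum_congr rfl fun r _ => ?_
    rw [mul_sum]
  have hw0 : ∀ i : (Σ r : ℕ, DirichletCharacter ℂ r), 0 ≤ (i.1 : ℝ) / Nat.totient i.1 :=
    fun i => by positivity
  have e1 : ∑ r ∈ Icc 1 R, (r : ℝ) / Nat.totient r * BILw P₁ P₂ r =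
      ∑ i ∈ T, (√((i.1 : ℝ) / Nat.totient i.1) * ‖BILs i.2 P₁‖) *
        (√((i.1 : ℝ) / Nat.totient i.1) * ‖BILs i.2 P₂‖) := by
    have h3 := hw (fun i => ‖BILs i.2 P₁‖ * ‖BILs i.2 P₂‖)
    calc ∑ r ∈ Icc 1 R, (r : ℝ) / Nat.totient r * BILw P₁ P₂ r
        = ∑ i ∈ T, ((i.1 : ℝ) / Nat.totient i.1) * (‖BILs i.2 P₁‖ * ‖BILs i.2 P₂‖) := h3
      _ = _ := by
          refine sum_congr rfl fun i _ => ?_
          have h4 := Real.mul_self_sqrt (hw0 i)
          calc (i.1 : ℝ) / Nat.totient i.1 * (‖BILs i.2 P₁‖ * ‖BILs i.2 P₂‖)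
              = (√((i.1 : ℝ) / Nat.totient i.1) * √((i.1 : ℝ) / Nat.totient i.1)) *
                  (‖BILs i.2 P₁‖ * ‖BILs i.2 P₂‖) := by rw [h4]
            _ = _ := by ring
  have e2 : ∀ (N : ℕ) (P : Finset ℕ), (∀ p ∈ P, 1 ≤ p ∧ p ≤ N) → R ^ 2 ≤ N →
      ∑ i ∈ T, (√((i.1 : ℝ) / Nat.totient i.1) * ‖BILs i.2 P‖) ^ 2 ≤ 10 * (N * P.card) := by
    intro N P hP hN
    have h3 := hw (fun i => ‖BILs i.2 P‖ ^ 2)
    have h4 := BIL_sieve R N P hP
    have h5 : ∑ i ∈ T, (√((i.1 : ℝ) / Nat.totient i.1) * ‖BILs i.2 P‖) ^ 2 =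
        ∑ i ∈ T, ((i.1 : ℝ) / Nat.totient i.1) * ‖BILs i.2 P‖ ^ 2 := by
      refine sum_congr rfl fun i _ => ?_
      rw [mul_pow, Real.sq_sqrt (hw0 i)]
    rw [h5, ← h3]
    refine h4.trans ?_
    have h6 : ((R : ℝ)) ^ 2 ≤ N := by exact_mod_cast hN
    have h7 : (0 : ℝ) ≤ P.card := Nat.cast_nonneg _
    nlinarith
  rw [e1]
  refine (Real.sum_mul_le_sqrt_mul_sqrt T _ _).trans ?_
  calc √(∑ i ∈ T, (√((i.1 : ℝ) / Nat.totient i.1) * ‖BILs i.2 P₁‖) ^ 2) *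
        √(∑ i ∈ T, (√((i.1 : ℝ) / Nat.totient i.1) * ‖BILs i.2 P₂‖) ^ 2)
      ≤ √(10 * (N₁ * P₁.card)) * √(10 * (N₂ * P₂.card)) :=
        mul_le_mul (Real.sqrt_le_sqrt (e2 N₁ P₁ hP₁ h1)) (Real.sqrt_le_sqrt (e2 N₂ P₂ hP₂ h2))
          (Real.sqrt_nonneg _) (Real.sqrt_nonneg _)
    _ = √(10 ^ 2 * ((N₁ : ℝ) * N₂ * P₁.card * P₂.card)) := by
        rw [← Real.sqrt_mul (by positivity)]
        congr 1
        ring
    _ = 10 * √((N₁ : ℝ) * N₂ * P₁.card * P₂.card) := by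
        rw [Real.sqrt_mul (by norm_num), Real.sqrt_sq (by norm_num)]

theorem bilinear : ∃ C : ℝ, 0 < C ∧ ∀ (𝓕 P₁ P₂ : Finset ℕ) (N₁ N₂ q₀ Dm : ℕ) (S : ℝ) (c : ℕ → ℕ),
    1 ≤ q₀ → 0 ≤ S → (∀ D ∈ 𝓕, 1 ≤ D ∧ D ≤ Dm ∧ Nat.Coprime (c D) D) →
    (∀ p ∈ P₁, p.Prime ∧ Dm < p ∧ p ≤ N₁) → (∀ p ∈ P₂, p.Prime ∧ Dm < p ∧ p ≤ N₂) →
    Dm ^ 2 ≤ N₁ → Dm ^ 2 ≤ N₂ → (∀ D ∈ 𝓕, ∀ q : ℕ, q ∣ D → 1 < q → q₀ ≤ q) →
    (∀ q : ℕ, 1 < q → ∑ D ∈ 𝓕.filter (fun D => q ∣ D), 1 / (Nat.totient D : ℝ)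
      ≤ S * √q / Nat.totient q) →
    ∑ D ∈ 𝓕, |(((P₁ ×ˢ P₂).filter fun p => p.1 * p.2 % D = c D % D).card : ℝ)
        - P₁.card * P₂.card / Nat.totient D|
      ≤ C * S * √((N₁ : ℝ) * N₂ * P₁.card * P₂.card) / √q₀ := by
  refine ⟨10, by norm_num, ?_⟩
  intro 𝓕 P₁ P₂ N₁ N₂ q₀ Dm S c hq₀ hS hF hP₁ hP₂ hN₁ hN₂ hq hsum
  have hcop : ∀ D ∈ 𝓕, ∀ p : ℕ, p.Prime → Dm < p → Nat.Coprime p D := by
    intro D hD p hp hlt
    obtain ⟨h1, h2, _⟩ := hF D hD
    rw [Nat.Prime.coprime_iff_not_dvd hp]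
    intro h3
    have := Nat.le_of_dvd h1 h3
    omega
  have hq0 : (0 : ℝ) < q₀ := by exact_mod_cast hq₀
  set V := √((N₁ : ℝ) * N₂ * P₁.card * P₂.card) with hV
  calc ∑ D ∈ 𝓕, |(((P₁ ×ˢ P₂).filter fun p => p.1 * p.2 % D = c D % D).card : ℝ)
        - P₁.card * P₂.card / Nat.totient D|
      ≤ ∑ D ∈ 𝓕, 1 / (Nat.totient D : ℝ) * ∑ r ∈ D.divisors with 2 ≤ r, BILw P₁ P₂ r := by
        refine sum_le_sum fun D hD => ?_
        obtain ⟨h1, h2, h3⟩ := hF D hD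
        exact BIL_one P₁ P₂ D (c D) h1 h3 (fun p hp => hcop D hD p (hP₁ p hp).1 (hP₁ p hp).2.1)
          (fun p hp => hcop D hD p (hP₂ p hp).1 (hP₂ p hp).2.1)
    _ = ∑ D ∈ 𝓕, ∑ r ∈ (Icc 2 Dm).filter (fun r => q₀ ≤ r),
          (if r ∣ D then 1 / (Nat.totient D : ℝ) else 0) * BILw P₁ P₂ r := by
        refine sum_congr rfl fun D hD => ?_
        obtain ⟨h1, h2, h3⟩ := hF D hD
        have h4 : ∀ r, (if r ∣ D then 1 / (Nat.totient D : ℝ) else 0) * BILw P₁ P₂ r =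
            if r ∣ D then 1 / (Nat.totient D : ℝ) * BILw P₁ P₂ r else 0 := by
          intro r
          split_ifs <;> simp
        simp_rw [h4]
        rw [← sum_filter, mul_sum]
        refine sum_congr ?_ fun _ _ => rfl
        ext r
        simp only [mem_filter, Nat.mem_divisors, mem_Icc]
        constructor
        · rintro ⟨⟨h5, _⟩, h6⟩
          exact ⟨⟨⟨h6, (Nat.le_of_dvd h1 h5).trans h2⟩, hq D hD r h5 (by omega)⟩, h5⟩
        · rintro ⟨⟨⟨h5, _⟩, _⟩, h6⟩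
          exact ⟨⟨h6, by omega⟩, h5⟩
    _ = ∑ r ∈ (Icc 2 Dm).filter (fun r => q₀ ≤ r),
          (∑ D ∈ 𝓕.filter (fun D => r ∣ D), 1 / (Nat.totient D : ℝ)) * BILw P₁ P₂ r := by
        rw [sum_comm]
        refine sum_congr rfl fun r _ => ?_
        rw [← sum_mul, sum_filter]
    _ ≤ ∑ r ∈ (Icc 2 Dm).filter (fun r => q₀ ≤ r),
          S / √q₀ * ((r : ℝ) / Nat.totient r * BILw P₁ P₂ r) := by
        refine sum_le_sum fun r hr => ?_
        rw [mem_filter, mem_Icc] at hr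
        have h1 := hsum r (by omega)
        have h2 := BILw_nonneg P₁ P₂ r
        have hr0 : (0 : ℝ) < r := by
          have : 0 < r := by omega
          exact_mod_cast this
        have hφ : (0 : ℝ) < Nat.totient r := by
          have : 0 < Nat.totient r := Nat.totient_pos.2 (by omega)
          exact_mod_cast this
        have h3 : S * √r / Nat.totient r ≤ S / √q₀ * ((r : ℝ) / Nat.totient r) := by
          have h4 : √r * √q₀ ≤ r := by
            calc √(r : ℝ) * √q₀ ≤ √r * √r := by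
                  refine mul_le_mul_of_nonneg_left (Real.sqrt_le_sqrt ?_) (Real.sqrt_nonneg _)
                  exact_mod_cast hr.2
              _ = r := Real.mul_self_sqrt hr0.le
          have hsq : 0 < √(q₀ : ℝ) := Real.sqrt_pos.2 hq0
          rw [div_mul_div_comm, div_le_div_iff₀ hφ (by positivity)]
          have h5 : 0 ≤ S * Nat.totient r := by positivity
          calc S * √r * (√q₀ * Nat.totient r) = S * Nat.totient r * (√r * √q₀) := by ring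
            _ ≤ S * Nat.totient r * r := mul_le_mul_of_nonneg_left h4 h5
            _ = S * r * Nat.totient r := by ring
        calc (∑ D ∈ 𝓕.filter (fun D => r ∣ D), 1 / (Nat.totient D : ℝ)) * BILw P₁ P₂ r
            ≤ (S * √r / Nat.totient r) * BILw P₁ P₂ r := mul_le_mul_of_nonneg_right h1 h2
          _ ≤ (S / √q₀ * ((r : ℝ) / Nat.totient r)) * BILw P₁ P₂ r :=
              mul_le_mul_of_nonneg_right h3 h2
          _ = _ := by ring
    _ ≤ ∑ r ∈ Icc 1 Dm, S / √q₀ * ((r : ℝ) / Nat.totient r * BILw P₁ P₂ r) := by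
        refine sum_le_sum_of_subset_of_nonneg ?_ fun r _ _ => ?_
        · intro r hr
          rw [mem_filter, mem_Icc] at hr
          rw [mem_Icc]
          omega
        · have := BILw_nonneg P₁ P₂ r
          positivity
    _ = S / √q₀ * ∑ r ∈ Icc 1 Dm, ((r : ℝ) / Nat.totient r * BILw P₁ P₂ r) := by rw [mul_sum]
    _ ≤ S / √q₀ * (10 * V) := by
        refine mul_le_mul_of_nonneg_left ?_ (by positivity)
        exact BIL_cs Dm N₁ N₂ P₁ P₂ (fun p hp => ⟨(hP₁ p hp).1.one_le, (hP₁ p hp).2.2⟩)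
          (fun p hp => ⟨(hP₂ p hp).1.one_le, (hP₂ p hp).2.2⟩) hN₁ hN₂
    _ = 10 * S * V / √q₀ := by ring

end Pool.Agent.helper7.JT
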