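import Mathlib
import Pool.Agent.helper7.JT.Defs
import Pool.Agent.helper77.OC.BB7
import Pool.Agent.helper7.OC.C1

/-! # JT, module GB: sums over the multiples of `q` -/

set_option autoImplicit false

open Finset

namespace Pool.Agent.helper7.JT

open OC (J hs cs PA P5 Exc esum esum_le)

lemma GB_hs_nonneg (P : Finset ℕ) : 0 ≤ hs P := sum_nonneg fun _ _ => by positivity

/-- one set: the sum over the sets containing `Q` -/
lemma GB_one (L Q : Finset ℕ) (K : ℕ) (R : ℝ) (hR : 0 ≤ R) (hK : (K : ℝ) ≤ R * hs L) :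
    ∑ S ∈ (L.powersetCard K).filter (fun S => Q ⊆ S), ∏ ℓ ∈ S, 1 / (ℓ : ℝ)
      ≤ (∏ ℓ ∈ Q, 1 / (ℓ : ℝ)) * R ^ Q.card * (hs L ^ K / K.factorial) := by
  have hs0 := GB_hs_nonneg L
  by_cases hQ : Q.card ≤ K
  · have h1 : ∑ S ∈ (L.powersetCard K).filter (fun S => Q ⊆ S), ∏ ℓ ∈ S, 1 / (ℓ : ℝ) =
        (∏ ℓ ∈ Q, 1 / (ℓ : ℝ)) *
          ∑ U ∈ ((L.powersetCard K).filter (fun S => Q ⊆ S)).image (fun S => S \ Q),
            ∏ ℓ ∈ U, 1 / (ℓ : ℝ) := by
      rw [Finset.sum_image, Finset.mul_sum]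
      · refine sum_congr rfl fun S hS => ?_
        rw [mem_filter] at hS
        rw [mul_comm]
        exact (prod_sdiff hS.2).symm
      · intro S hS S' hS' h
        rw [mem_coe, mem_filter] at hS hS'
        have h2 := sdiff_union_of_subset hS.2
        have h3 := sdiff_union_of_subset hS'.2
        rw [← h2, ← h3]
        exact congrArg (fun U => U ∪ Q) h
    have h2 : ((L.powersetCard K).filter (fun S => Q ⊆ S)).image (fun S => S \ Q) ⊆
        L.powersetCard (K - Q.card) := by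
      intro U hU
      rw [mem_image] at hU
      obtain ⟨S, hS, rfl⟩ := hU
      rw [mem_filter, mem_powersetCard] at hS
      rw [mem_powersetCard]
      exact ⟨sdiff_subset.trans hS.1.1, by rw [card_sdiff_of_subset hS.2, hS.1.2]⟩
    have h3 : ∑ U ∈ ((L.powersetCard K).filter (fun S => Q ⊆ S)).image (fun S => S \ Q),
            ∏ ℓ ∈ U, 1 / (ℓ : ℝ) ≤ hs L ^ (K - Q.card) / (K - Q.card).factorial := by
      refine (sum_le_sum_of_subset_of_nonneg h2
        fun _ _ _ => prod_nonneg fun _ _ => by positivity).trans ?_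
      exact esum_le L (K - Q.card) (fun ℓ => 1 / (ℓ : ℝ)) (fun _ _ => by positivity)
    have h4 : hs L ^ (K - Q.card) / (K - Q.card).factorial ≤
        R ^ Q.card * (hs L ^ K / K.factorial) := by
      have h5 : (K.factorial : ℝ) ≤ (K : ℝ) ^ Q.card * (K - Q.card).factorial := by
        have h6 : K.factorial ≤ K ^ Q.card * (K - Q.card).factorial := by
          rw [← Nat.factorial_mul_descFactorial hQ, mul_comm]
          exact Nat.mul_le_mul_right _ (Nat.descFactorial_le_pow K Q.card)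
        exact_mod_cast h6
      have h6 : (K : ℝ) ^ Q.card ≤ (R * hs L) ^ Q.card :=
        pow_le_pow_left₀ (Nat.cast_nonneg _) hK _
      have h7 : (0 : ℝ) < (K - Q.card).factorial := by exact_mod_cast Nat.factorial_pos _
      have h8 : (0 : ℝ) < K.factorial := by exact_mod_cast Nat.factorial_pos _
      rw [mul_div_assoc', div_le_div_iff₀ h7 h8]
      calc hs L ^ (K - Q.card) * K.factorial
          ≤ hs L ^ (K - Q.card) * ((K : ℝ) ^ Q.card * (K - Q.card).factorial) :=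
            mul_le_mul_of_nonneg_left h5 (by positivity)
        _ ≤ hs L ^ (K - Q.card) * ((R * hs L) ^ Q.card * (K - Q.card).factorial) := by
            refine mul_le_mul_of_nonneg_left ?_ (by positivity)
            exact mul_le_mul_of_nonneg_right h6 h7.le
        _ = R ^ Q.card * (hs L ^ (K - Q.card) * hs L ^ Q.card) * (K - Q.card).factorial := by
            rw [mul_pow]; ring
        _ = R ^ Q.card * hs L ^ K * (K - Q.card).factorial := by
            rw [← pow_add, Nat.sub_add_cancel hQ]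
    rw [h1, mul_assoc]
    exact mul_le_mul_of_nonneg_left (h3.trans h4) (prod_nonneg fun _ _ => by positivity)
  · have h1 : (L.powersetCard K).filter (fun S => Q ⊆ S) = ∅ := by
      rw [filter_eq_empty_iff]
      intro S hS hQS
      rw [mem_powersetCard] at hS
      have := card_le_card hQS
      omega
    rw [h1, sum_empty]
    exact mul_nonneg (mul_nonneg (prod_nonneg fun _ _ => by positivity) (pow_nonneg hR _))
      (by positivity)

theorem G_bound {ι : Type} [Fintype ι] [DecidableEq ι] (L : ι → Finset ℕ) (K : ι → ℕ) (R : ℝ)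
    (hR : 2 ≤ R) (hL : ∀ i, ∀ ℓ ∈ L i, ℓ.Prime ∧ R ^ 4 ≤ ℓ) (hdis : ∀ i j, i ≠ j → Disjoint (L i) (L j))
    (hK : ∀ i, (K i : ℝ) ≤ R * hs (L i)) (hKR : ∑ i, (K i : ℝ) ≤ R) (q : ℕ) (hq : 1 < q) :
    ∑ T ∈ (Famj L K).filter (fun T => q ∣ prj T), 1 / (Nat.totient (prj T) : ℝ)
      ≤ 2 * EMj L K * √q / Nat.totient q := by
  have hR0 : 0 < R := by linarith
  have hE0 : 0 ≤ EMj L K := prod_nonneg fun i _ => by
    have := GB_hs_nonneg (L i); positivity
  have hmem : ∀ T : ι → Finset ℕ, T ∈ Famj L K ↔ ∀ i, T i ⊆ L i ∧ (T i).card = K i := by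
    intro T
    simp [Famj, Fintype.mem_piFinset, mem_powersetCard]
  rcases ((Famj L K).filter (fun T => q ∣ prj T)).eq_empty_or_nonempty with h0 | ⟨T0, hT0⟩
  · rw [h0, sum_empty]
    positivity
  -- factorisation of the products
  have hprj : ∀ T ∈ Famj L K, prj T = ∏ ℓ ∈ univ.biUnion T, ℓ := by
    intro T hT
    rw [hmem] at hT
    unfold prj
    rw [prod_biUnion]
    intro i _ j _ hij
    exact (hdis i j hij).mono (hT i).1 (hT j).1
  have hprime : ∀ T ∈ Famj L K, ∀ ℓ ∈ univ.biUnion T, ℓ.Prime ∧ R ^ 4 ≤ (ℓ : ℝ) := by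
    intro T hT ℓ hℓ
    rw [hmem] at hT
    rw [mem_biUnion] at hℓ
    obtain ⟨i, _, hi⟩ := hℓ
    exact hL i ℓ ((hT i).1 hi)
  have hpf : ∀ T ∈ Famj L K, (prj T).primeFactors = univ.biUnion T := by
    intro T hT
    rw [hprj T hT]
    exact Nat.primeFactors_prod fun ℓ hℓ => (hprime T hT ℓ hℓ).1
  rw [mem_filter] at hT0
  have hsf : Squarefree (prj T0) := by
    rw [hprj T0 hT0.1]
    refine Finset.squarefree_prod_of_pairwise_isCoprime ?_ ?_
    · intro x hx y hy hxy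
      have h1 := (hprime T0 hT0.1 x hx).1
      have h2 := (hprime T0 hT0.1 y hy).1
      exact Nat.coprime_iff_isRelPrime.1 ((Nat.coprime_primes h1 h2).2 hxy)
    · intro x hx
      exact (hprime T0 hT0.1 x hx).1.squarefree
  have hqsf : Squarefree q := hsf.squarefree_of_dvd hT0.2
  set Q : ι → Finset ℕ := fun i => (L i).filter (fun ℓ => ℓ ∣ q) with hQ
  have hqpf : q.primeFactors = univ.biUnion Q := by
    ext p
    rw [Nat.mem_primeFactors, mem_biUnion]
    constructor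
    · rintro ⟨hp, hpq, _⟩
      have h1 : p ∈ (prj T0).primeFactors :=
        Nat.mem_primeFactors.2 ⟨hp, hpq.trans hT0.2, hsf.ne_zero⟩
      rw [hpf T0 hT0.1, mem_biUnion] at h1
      obtain ⟨i, _, hi⟩ := h1
      exact ⟨i, mem_univ i, mem_filter.2 ⟨((hmem T0).1 hT0.1 i).1 hi, hpq⟩⟩
    · rintro ⟨i, _, hi⟩
      rw [hQ, mem_filter] at hi
      exact ⟨(hL i p hi.1).1, hi.2, by omega⟩
  have hQdis : ∀ i j, i ≠ j → Disjoint (Q i) (Q j) := fun i j hij =>
    (hdis i j hij).mono (filter_subset _ _) (filter_subset _ _)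
  have hqprod : (q : ℝ) = ∏ i, ∏ ℓ ∈ Q i, (ℓ : ℝ) := by
    have h1 : ∏ ℓ ∈ q.primeFactors, ℓ = q := Nat.prod_primeFactors_of_squarefree hqsf
    rw [hqpf, prod_biUnion (fun i _ j _ hij => hQdis i j hij)] at h1
    rw [← h1]
    push_cast
    rfl
  -- the sets contain the sets `Q i`
  have hsub : (Famj L K).filter (fun T => q ∣ prj T) ⊆
      (Famj L K).filter (fun T => ∀ i, Q i ⊆ T i) := by
    intro T hT
    rw [mem_filter] at hT ⊢
    refine ⟨hT.1, fun i ℓ hℓ => ?_⟩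
    rw [hQ, mem_filter] at hℓ
    have hp := (hL i ℓ hℓ.1).1
    have hne : prj T ≠ 0 := by
      rw [hprj T hT.1]
      exact prod_ne_zero_iff.2 fun x hx => (hprime T hT.1 x hx).1.ne_zero
    have h1 : ℓ ∈ (prj T).primeFactors := Nat.mem_primeFactors.2 ⟨hp, hℓ.2.trans hT.2, hne⟩
    rw [hpf T hT.1, mem_biUnion] at h1
    obtain ⟨j, _, hj⟩ := h1
    by_cases hij : i = j
    · rw [hij]; exact hj
    · exact absurd (disjoint_left.1 (hdis i j hij) hℓ.1 (((hmem T).1 hT.1 j).1 hj)) not_false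
  -- the totient
  have htot : ∀ T ∈ Famj L K, 1 / (Nat.totient (prj T) : ℝ) ≤
      2 * ∏ i, ∏ ℓ ∈ T i, 1 / (ℓ : ℝ) := by
    intro T hT
    have h1 : (Nat.totient (prj T) : ℝ) = prj T * ∏ p ∈ univ.biUnion T, (1 - 1 / (p : ℝ)) := by
      have h2 := Nat.totient_eq_mul_prod_factors (prj T)
      rw [hpf T hT] at h2
      have h3 : ((Nat.totient (prj T) : ℚ) : ℝ) =
          (((prj T : ℚ) * ∏ p ∈ univ.biUnion T, (1 - (p : ℚ)⁻¹) : ℚ) : ℝ) := by rw [h2]
      push_cast at h3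
      rw [h3]
      simp only [one_div]
    have h2 : ∑ p ∈ univ.biUnion T, 1 / (p : ℝ) ≤ 1 / 2 := by
      calc ∑ p ∈ univ.biUnion T, 1 / (p : ℝ) = ∑ i, ∑ ℓ ∈ T i, 1 / (ℓ : ℝ) := by
            rw [sum_biUnion]
            intro i _ j _ hij
            exact (hdis i j hij).mono (((hmem T).1 hT i).1) (((hmem T).1 hT j).1)
        _ ≤ ∑ i, ∑ _ℓ ∈ T i, 1 / R ^ 4 := by
            refine sum_le_sum fun i _ => sum_le_sum fun ℓ hℓ => ?_
            exact one_div_le_one_div_of_le (by positivity) (hL i ℓ (((hmem T).1 hT i).1 hℓ)).2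
        _ = (∑ i, (K i : ℝ)) * (1 / R ^ 4) := by
            rw [sum_mul]
            refine sum_congr rfl fun i _ => ?_
            rw [sum_const, nsmul_eq_mul, ((hmem T).1 hT i).2]
        _ ≤ R * (1 / R ^ 4) := mul_le_mul_of_nonneg_right hKR (by positivity)
        _ = 1 / R ^ 3 := by field_simp
        _ ≤ 1 / 2 ^ 3 := one_div_le_one_div_of_le (by norm_num) (pow_le_pow_left₀ (by norm_num) hR 3)
        _ ≤ 1 / 2 := by norm_num
    have h3 := OC.prod_one_sub_ge (univ.biUnion T) (fun p => 1 / (p : ℝ))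
      (fun p _ => by positivity) (by linarith)
    have h4 : (1 / 2 : ℝ) ≤ ∏ p ∈ univ.biUnion T, (1 - 1 / (p : ℝ)) := by linarith
    have h5 : ∏ i, ∏ ℓ ∈ T i, 1 / (ℓ : ℝ) = 1 / (prj T : ℝ) := by
      unfold prj
      push_cast
      simp_rw [one_div, Finset.prod_inv_distrib]
    have h6 : (0 : ℝ) < prj T := by
      have : prj T ≠ 0 := by
        rw [hprj T hT]
        exact prod_ne_zero_iff.2 fun x hx => (hprime T hT x hx).1.ne_zero
      exact_mod_cast Nat.pos_of_ne_zero this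
    rw [h5, h1]
    have h7 : (prj T : ℝ) * (1 / 2) ≤ prj T * ∏ p ∈ univ.biUnion T, (1 - 1 / (p : ℝ)) :=
      mul_le_mul_of_nonneg_left h4 h6.le
    calc 1 / ((prj T : ℝ) * ∏ p ∈ univ.biUnion T, (1 - 1 / (p : ℝ)))
        ≤ 1 / ((prj T : ℝ) * (1 / 2)) := one_div_le_one_div_of_le (by positivity) h7
      _ = 2 * (1 / (prj T : ℝ)) := by field_simp
  -- assembly
  have hmain : ∑ T ∈ (Famj L K).filter (fun T => ∀ i, Q i ⊆ T i), ∏ i, ∏ ℓ ∈ T i, 1 / (ℓ : ℝ) =
      ∏ i, ∑ S ∈ ((L i).powersetCard (K i)).filter (fun S => Q i ⊆ S), ∏ ℓ ∈ S, 1 / (ℓ : ℝ) := by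
    rw [Finset.prod_univ_sum]
    refine sum_congr ?_ fun _ _ => rfl
    ext T
    simp only [mem_filter, Famj, Fintype.mem_piFinset]
    exact ⟨fun h i => ⟨h.1 i, h.2 i⟩, fun h => ⟨fun i => (h i).1, fun i => (h i).2⟩⟩
  have hprodle : ∏ i, ∑ S ∈ ((L i).powersetCard (K i)).filter (fun S => Q i ⊆ S),
      ∏ ℓ ∈ S, 1 / (ℓ : ℝ) ≤
      ∏ i, ((∏ ℓ ∈ Q i, 1 / (ℓ : ℝ)) * R ^ (Q i).card * (hs (L i) ^ K i / (K i).factorial)) := by
    refine prod_le_prod (fun i _ => sum_nonneg fun S _ => prod_nonneg fun _ _ => by positivity)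
      fun i _ => GB_one (L i) (Q i) (K i) R hR0.le (hK i)
  rw [prod_mul_distrib, prod_mul_distrib] at hprodle
  have hq1 : ∏ i, ∏ ℓ ∈ Q i, 1 / (ℓ : ℝ) = 1 / (q : ℝ) := by
    rw [hqprod]
    simp_rw [one_div, Finset.prod_inv_distrib]
  have hEM : ∏ i, (hs (L i) ^ K i / (K i).factorial) = EMj L K := rfl
  rw [hq1, hEM] at hprodle
  set ρ : ℝ := ∏ i, R ^ (Q i).card with hρ
  have hρ1 : 1 ≤ ρ := by
    rw [hρ]
    calc (1 : ℝ) = ∏ _i : ι, (1 : ℝ) := by simp
      _ ≤ _ := prod_le_prod (fun _ _ => by norm_num) fun i _ => one_le_pow₀ (by linarith)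
  have hρ4 : ρ ^ 4 ≤ q := by
    rw [hρ, ← prod_pow, hqprod]
    refine prod_le_prod (fun i _ => by positivity) fun i _ => ?_
    rw [← pow_mul, mul_comm, pow_mul, ← prod_const]
    refine prod_le_prod (fun ℓ _ => by positivity) fun ℓ hℓ => ?_
    rw [hQ, mem_filter] at hℓ
    exact (hL i ℓ hℓ.1).2
  have hρs : ρ ≤ √q := by
    refine Real.le_sqrt_of_sq_le (le_trans ?_ hρ4)
    exact pow_le_pow_right₀ hρ1 (by norm_num)
  have hq0 : (0 : ℝ) < q := by
    have : 0 < q := by omega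
    exact_mod_cast this
  have hφ0 : (0 : ℝ) < Nat.totient q := by
    have : 0 < Nat.totient q := Nat.totient_pos.2 (by omega)
    exact_mod_cast this
  have hφq : (Nat.totient q : ℝ) ≤ q := by exact_mod_cast Nat.totient_le q
  calc ∑ T ∈ (Famj L K).filter (fun T => q ∣ prj T), 1 / (Nat.totient (prj T) : ℝ)
      ≤ ∑ T ∈ (Famj L K).filter (fun T => q ∣ prj T), 2 * ∏ i, ∏ ℓ ∈ T i, 1 / (ℓ : ℝ) :=
        sum_le_sum fun T hT => htot T (mem_filter.1 hT).1
    _ ≤ ∑ T ∈ (Famj L K).filter (fun T => ∀ i, Q i ⊆ T i), 2 * ∏ i, ∏ ℓ ∈ T i, 1 / (ℓ : ℝ) :=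
        sum_le_sum_of_subset_of_nonneg hsub fun T _ _ => by positivity
    _ = 2 * ∏ i, ∑ S ∈ ((L i).powersetCard (K i)).filter (fun S => Q i ⊆ S),
          ∏ ℓ ∈ S, 1 / (ℓ : ℝ) := by rw [← mul_sum, hmain]
    _ ≤ 2 * (1 / (q : ℝ) * ρ * EMj L K) := mul_le_mul_of_nonneg_left hprodle (by norm_num)
    _ ≤ 2 * (1 / (Nat.totient q : ℝ) * √q * EMj L K) := by
        refine mul_le_mul_of_nonneg_left ?_ (by norm_num)
        refine mul_le_mul_of_nonneg_right ?_ hE0
        exact mul_le_mul (one_div_le_one_div_of_le hφ0 hφq) hρs (by linarith) (by positivity)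
    _ = 2 * EMj L K * √q / Nat.totient q := by ring

end Pool.Agent.helper7.JT
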